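import Mathlib
import Pool.Agent.K3h70.WA.Pow
import Pool.Agent.K3h70.WB.Main

/-! # Fractional parts of `α m`, `m` a sum of O(k) k-th powers (helper70)

For every `ε > 0` and `B ≥ 1` there is a constant `C` such that for all `k ≥ 2` the sums of at most `C k`
`k`-th powers have the following approximation property. For almost every real `α` and all large `N`, for
all naturals `n ≤ N ^ B` and all real `β` some such sum `m` has `|m - n| ≤ N` and
`‖α m - β‖ ≤ N ^ (-1 + ε)`. And for `0 < θ < 1` the set of the `α` for which this fails for arbitrarily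
large `N` with the precision `N ^ (-θ)` has a Hausdorff dimension between `2 θ / (1 + θ)` (which is a lower
bound for the sums of any number of elements of any set) and `2 θ / (1 + θ) + ε`. The same holds with
`C / κ` summands for all sets with gaps `K x ^ (1 - κ)`. -/

set_option autoImplicit false

open Filter MeasureTheory

namespace Pool.Agent.Results.MP_45c923_nt.FractionalParts

/-- for all natural `n ≤ N ^ B` and all real `β` there is a sum `m` of at most `S` elements of `A`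
(the list `l` gives the summands) with `|m - n| ≤ N` and with `α m` at distance at most `N ^ (-θ)` from
`β` modulo `1` -/
def Approx (A : Set ℕ) (S B θ α : ℝ) (N : ℕ) : Prop :=
  ∀ n : ℕ, (n : ℝ) ≤ (N : ℝ) ^ B → ∀ β : ℝ, ∃ l : List ℕ, (∀ a ∈ l, a ∈ A) ∧ (l.length : ℝ) ≤ S ∧
    |((l.sum : ℕ) : ℝ) - n| ≤ N ∧ ∃ z : ℤ, |α * ((l.sum : ℕ) : ℝ) - β - z| ≤ (N : ℝ) ^ (-θ)

lemma ae_of_dim {E : Set ℝ} {P : ℝ → Prop} (h : dimH E < 1) (hP : ∀ α, ¬ P α → α ∈ E) : ∀ᵐ α, P α := by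
  have h1 : μH[(1 : NNReal)] E = 0 := by
    apply hausdorffMeasure_of_dimH_lt
    simpa using h
  have h2 : (volume : Measure ℝ) E = 0 := by
    rw [← hausdorffMeasure_real]
    simpa using h1
  rw [ae_iff]
  exact measure_mono_null (fun α hα => hP α hα) h2

theorem result :
    ∀ ε : ℝ, 0 < ε → ∀ B : ℝ, 1 ≤ B → ∃ C : ℝ, 0 < C ∧
      (∀ k : ℕ, 2 ≤ k →
        (∀ᵐ α : ℝ, ∀ᶠ N : ℕ in atTop, Approx {a | ∃ x : ℕ, a = x ^ k} (C * k) B (1 - ε) α N) ∧
        ∀ θ : ℝ, 0 < θ → θ < 1 →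
          ENNReal.ofReal (2 * θ / (1 + θ)) ≤
            dimH {α : ℝ | ∃ᶠ N : ℕ in atTop, ¬ Approx {a | ∃ x : ℕ, a = x ^ k} (C * k) B θ α N} ∧
          dimH {α : ℝ | ∃ᶠ N : ℕ in atTop, ¬ Approx {a | ∃ x : ℕ, a = x ^ k} (C * k) B θ α N} ≤
            ENNReal.ofReal (2 * θ / (1 + θ) + ε)) ∧
      (∀ κ K x₀ : ℝ, 0 < κ → κ < 1 → ∀ A : Set ℕ,
        (∀ x : ℝ, x₀ ≤ x → ∃ a ∈ A, x - K * x ^ (1 - κ) ≤ (a : ℝ) ∧ (a : ℝ) ≤ x) →
        (∀ᵐ α : ℝ, ∀ᶠ N : ℕ in atTop, Approx A (C / κ) B (1 - ε) α N) ∧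
        ∀ θ : ℝ, 0 < θ → θ < 1 →
          ENNReal.ofReal (2 * θ / (1 + θ)) ≤
            dimH {α : ℝ | ∃ᶠ N : ℕ in atTop, ¬ Approx A (C / κ) B θ α N} ∧
          dimH {α : ℝ | ∃ᶠ N : ℕ in atTop, ¬ Approx A (C / κ) B θ α N} ≤
            ENNReal.ofReal (2 * θ / (1 + θ) + ε)) := by
  intro ε hε B hB
  set ε' : ℝ := min ε (1 / 2) with hε'
  have hε'0 : 0 < ε' := by rw [hε']; positivity
  have hε'1 : ε' ≤ 1 / 2 := min_le_right _ _
  have hε'2 : ε' ≤ ε := min_le_left _ _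
  obtain ⟨C, hC, hup⟩ := Pool.Agent.K3h70.WB.upper (ε' / 4) (by positivity) B hB
  have hgen : ∀ κ K x₀ : ℝ, 0 < κ → κ < 1 → ∀ A : Set ℕ,
      (∀ x : ℝ, x₀ ≤ x → ∃ a ∈ A, x - K * x ^ (1 - κ) ≤ (a : ℝ) ∧ (a : ℝ) ≤ x) →
      (∀ᵐ α : ℝ, ∀ᶠ N : ℕ in atTop, Approx A (C / κ) B (1 - ε) α N) ∧
      ∀ θ : ℝ, 0 < θ → θ < 1 →
        ENNReal.ofReal (2 * θ / (1 + θ)) ≤
          dimH {α : ℝ | ∃ᶠ N : ℕ in atTop, ¬ Approx A (C / κ) B θ α N} ∧
        dimH {α : ℝ | ∃ᶠ N : ℕ in atTop, ¬ Approx A (C / κ) B θ α N} ≤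
          ENNReal.ofReal (2 * θ / (1 + θ) + ε) := by
    intro κ K x₀ hκ hκ1 A hA
    have hup' : ∀ θ : ℝ, 0 < θ → θ < 1 →
        dimH {α : ℝ | ∃ᶠ N : ℕ in atTop, ¬ Approx A (C / κ) B θ α N} ≤
          ENNReal.ofReal (2 * θ / (1 + θ) + ε' / 4) := fun θ hθ hθ1 => hup κ K x₀ hκ hκ1 A hA θ hθ hθ1
    refine ⟨?_, fun θ hθ hθ1 => ⟨Pool.Agent.K3h70.WB.lower A (C / κ) B hθ hθ1, ?_⟩⟩
    · apply ae_of_dim (E := {α : ℝ | ∃ᶠ N : ℕ in atTop, ¬ Approx A (C / κ) B (1 - ε') α N})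
      · refine lt_of_le_of_lt (hup' (1 - ε') (by linarith) (by linarith)) ?_
        rw [ENNReal.ofReal_lt_one]
        have h1 : 2 * (1 - ε') / (1 + (1 - ε')) ≤ 1 - ε' / 2 := by
          rw [div_le_iff₀ (by linarith)]
          nlinarith
        linarith
      · intro α hα
        simp only [Set.mem_ofPred_eq]
        intro hcon
        apply hα
        filter_upwards [hcon, eventually_ge_atTop 1] with N hN hN1
        rw [not_not] at hN
        intro n hn β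
        obtain ⟨l, h1, h2, h3, z, h4⟩ := hN n hn β
        refine ⟨l, h1, h2, h3, z, h4.trans ?_⟩
        apply Real.rpow_le_rpow_of_exponent_le (by exact_mod_cast hN1)
        linarith
    · refine (hup' θ hθ hθ1).trans (ENNReal.ofReal_le_ofReal ?_)
      linarith
  refine ⟨C, hC, fun k hk => ?_, hgen⟩
  have hkR : (1 : ℝ) < k := by exact_mod_cast (by omega : 1 < k)
  have h1 := hgen (1 / (k : ℝ)) ((k : ℝ) * 2 ^ (k - 1)) 1 (by positivity)
    (by rw [div_lt_one (by linarith)]; exact hkR) (Pool.Agent.K3h70.WA.powers k)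
    (Pool.Agent.K3h70.WA.gap_powers k hk)
  rw [div_div_eq_mul_div, div_one] at h1
  exact h1

end Pool.Agent.Results.MP_45c923_nt.FractionalParts
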