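import Mathlib
import Pool.Agent.K3h70.PS.Main
import Pool.Agent.K3h70.WA.Pow
import Pool.Agent.K3h70.WB.Near

/-! # One fractional power and `O(k)` `k`-th powers (helper70) -/

set_option autoImplicit false

namespace Pool.Agent.Results.MP_45c923_nt.OneFractionalPower

open Pool.Agent.K3h70.WA Pool.Agent.K3h70.WB Pool.Agent.K3h70.PS

/-- general sets with gaps of power type -/
lemma general (c : ℝ) (hc : 1 < c) (hc' : ∀ z : ℤ, c ≠ z) (ε : ℝ) (hε : 0 < ε) :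
    ∃ C : ℕ, ∀ κ K x₀ : ℝ, 0 < κ → κ < 1 → ∃ n₀ : ℕ, ∀ A : Set ℕ, Gap κ K x₀ A →
      ∀ n : ℕ, n₀ ≤ n → ∃ G : Finset ℕ, (n : ℝ) ^ (1 / c - ε) ≤ G.card ∧ ∀ m ∈ G,
        ∃ l : List ℕ, (∀ a ∈ l, a ∈ A) ∧ (l.length : ℝ) ≤ C / κ ∧ ⌊(m : ℝ) ^ c⌋₊ + l.sum = n := by
  classical
  obtain ⟨η, hη, hη2, hmain⟩ := Pool.Agent.K3h70.PS.main hc hc' hε
  refine ⟨⌈2 * (Real.log (1 / η) + 1)⌉₊, fun κ K x₀ hκ hκ1 => ?_⟩
  obtain ⟨s, hs, c₁, hc₁, X₀, hmany⟩ := many (K' := K) (x₀' := x₀) hκ hκ1 hη hη2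
  obtain ⟨n₀, hn₀⟩ := hmain c₁ hc₁
  refine ⟨max n₀ ⌈4 * X₀⌉₊, fun A hA n hn => ?_⟩
  have hn1 : n₀ ≤ n := (le_max_left _ _).trans hn
  have hn2 : 4 * X₀ ≤ n := by
    have h1 : (⌈4 * X₀⌉₊ : ℝ) ≤ n := by exact_mod_cast (le_max_right _ _).trans hn
    exact (Nat.le_ceil _).trans h1
  have hcard := hmany A hA ((n : ℝ) / 4) (by linarith)
  obtain ⟨G, hG1, hG2⟩ := hn₀ n hn1 (sums A s ((n : ℝ) / 4))
    (fun r hr => by
      have := sums_le (by positivity) hr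
      linarith) hcard
  refine ⟨G, hG1, fun m hm => ?_⟩
  obtain ⟨r, hr, r', hr', h⟩ := hG2 m hm
  have h1 : Rep A s r := by
    rw [sums, Finset.mem_filter] at hr
    exact hr.2
  have h2 : Rep A s r' := by
    rw [sums, Finset.mem_filter] at hr'
    exact hr'.2
  obtain ⟨l, h3, h4, h5⟩ := h1.add h2
  refine ⟨l, h3, ?_, by rw [h5]; exact h⟩
  have h6 : (l.length : ℝ) ≤ s + s := by exact_mod_cast h4
  have h7 : 2 * (Real.log (1 / η) + 1) ≤ (⌈2 * (Real.log (1 / η) + 1)⌉₊ : ℝ) := Nat.le_ceil _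
  calc (l.length : ℝ) ≤ 2 * ((Real.log (1 / η) + 1) / κ) := by linarith
    _ = 2 * (Real.log (1 / η) + 1) / κ := by ring
    _ ≤ _ := div_le_div_of_nonneg_right h7 hκ.le

/-- **One term `⌊m ^ c⌋` makes `O(k)` `k`-th powers suffice.** Let `c > 1` not be an integer and `ε > 0`. There
is a constant `C`, depending on `c` and `ε` only, such that

* for every `k ≥ 2` every large `n` is `⌊m ^ c⌋` plus a sum of at most `C k` `k`-th powers, for at least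
  `n ^ (1 / c - ε)` different `m`;
* the same holds with at most `C / κ` elements of any set `A` of natural numbers which has, for some `K` and
  `x₀`, an element in each `[x - K x ^ (1 - κ), x]`, `x ≥ x₀`. -/
theorem result (c : ℝ) (hc : 1 < c) (hc' : ∀ z : ℤ, c ≠ z) (ε : ℝ) (hε : 0 < ε) :
    ∃ C : ℕ,
      (∀ k : ℕ, 2 ≤ k → ∃ n₀ : ℕ, ∀ n : ℕ, n₀ ≤ n →
        ∃ G : Finset ℕ, (n : ℝ) ^ (1 / c - ε) ≤ G.card ∧ ∀ m ∈ G,
          ∃ l : List ℕ, l.length ≤ C * k ∧ ⌊(m : ℝ) ^ c⌋₊ + (l.map (fun x => x ^ k)).sum = n) ∧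
      (∀ κ K x₀ : ℝ, 0 < κ → κ < 1 → ∃ n₀ : ℕ, ∀ A : Set ℕ,
        (∀ x : ℝ, x₀ ≤ x → ∃ a ∈ A, x - K * x ^ (1 - κ) ≤ (a : ℝ) ∧ (a : ℝ) ≤ x) →
        ∀ n : ℕ, n₀ ≤ n → ∃ G : Finset ℕ, (n : ℝ) ^ (1 / c - ε) ≤ G.card ∧ ∀ m ∈ G,
          ∃ l : List ℕ, (∀ a ∈ l, a ∈ A) ∧ (l.length : ℝ) ≤ C / κ ∧
            ⌊(m : ℝ) ^ c⌋₊ + l.sum = n) := by
  obtain ⟨C, hC⟩ := general c hc hc' ε hε
  refine ⟨C, fun k hk => ?_, fun κ K x₀ hκ hκ1 => ?_⟩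
  · have hkR : (2 : ℝ) ≤ k := by exact_mod_cast hk
    have hk0 : (0 : ℝ) < k := by linarith
    obtain ⟨n₀, hn₀⟩ := hC (1 / k) ((k : ℝ) * 2 ^ (k - 1)) 1 (by positivity)
      (by rw [div_lt_one hk0]; linarith)
    refine ⟨n₀, fun n hn => ?_⟩
    obtain ⟨G, hG1, hG2⟩ := hn₀ (powers k) (gap_powers k hk) n hn
    refine ⟨G, hG1, fun m hm => ?_⟩
    obtain ⟨l, h1, h2, h3⟩ := hG2 m hm
    obtain ⟨l', hl'⟩ := powers_list k l h1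
    refine ⟨l', ?_, by rw [← hl']; exact h3⟩
    have h4 : l.length = l'.length := by rw [hl', List.length_map]
    rw [div_div_eq_mul_div, div_one] at h2
    rw [h4] at h2
    exact_mod_cast h2
  · obtain ⟨n₀, hn₀⟩ := hC κ K x₀ hκ hκ1
    exact ⟨n₀, fun A hA n hn => hn₀ A hA n hn⟩

end Pool.Agent.Results.MP_45c923_nt.OneFractionalPower
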