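import Mathlib
import Pool.Agent.K3h70.WA.Pow
import Pool.Agent.K3h70.RP.Main

/-! # Slightly perturbed k-th powers: O(k) summands suffice almost surely (helper70)

Let `0 < ε ≤ 1/2`, `k ≥ 2` and let `ξ n` be independent, uniformly distributed on the integers of
`[0, n ^ (ε k)]`. Almost surely every large integer is a sum of at most `(log (1 / ε) + 5) k` of the numbers
`n ^ k + ξ n`. More generally let `a` be an injective sequence of naturals with an element in each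
`[x - K x ^ (1 - κ), x]`, `x ≥ x₀` (`0 < κ ≤ 1/2`), and `ξ n` be independent, uniform on the integers of
`[0, (a n) ^ ε]`: almost surely every large integer is a sum of at most `(log (1 / ε) + 5) / κ` of the
`a n + ξ n`. -/

set_option autoImplicit false

open Filter MeasureTheory ProbabilityTheory
open scoped ENNReal

namespace Pool.Agent.Results.MP_45c923_nt.RandomPerturbations

theorem result :
    (∀ ε : ℝ, 0 < ε → ε ≤ 1 / 2 → ∀ k : ℕ, 2 ≤ k → ∀ (Ω : Type) [MeasurableSpace Ω] (μ : Measure Ω)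
      [IsProbabilityMeasure μ] (ξ : ℕ → Ω → ℕ), (∀ n, Measurable (ξ n)) → iIndepFun ξ μ →
      (∀ n : ℕ, ∀ j ≤ ⌊(n : ℝ) ^ (ε * k)⌋₊,
        μ {ω | ξ n ω = j} = 1 / ((⌊(n : ℝ) ^ (ε * k)⌋₊ : ℝ≥0∞) + 1)) →
      ∀ᵐ ω ∂μ, ∀ᶠ X : ℕ in atTop, ∃ l : List ℕ, (l.length : ℝ) ≤ (Real.log (1 / ε) + 5) * k ∧
        (l.map fun n => n ^ k + ξ n ω).sum = X) ∧
    (∀ ε : ℝ, 0 < ε → ε ≤ 1 / 2 → ∀ κ K x₀ : ℝ, 0 < κ → κ ≤ 1 / 2 → ∀ a : ℕ → ℕ,
      Function.Injective a →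
      (∀ x : ℝ, x₀ ≤ x → ∃ n, x - K * x ^ (1 - κ) ≤ (a n : ℝ) ∧ (a n : ℝ) ≤ x) →
      ∀ (Ω : Type) [MeasurableSpace Ω] (μ : Measure Ω) [IsProbabilityMeasure μ] (ξ : ℕ → Ω → ℕ),
      (∀ n, Measurable (ξ n)) → iIndepFun ξ μ →
      (∀ n : ℕ, ∀ j ≤ ⌊(a n : ℝ) ^ ε⌋₊, μ {ω | ξ n ω = j} = 1 / ((⌊(a n : ℝ) ^ ε⌋₊ : ℝ≥0∞) + 1)) →
      ∀ᵐ ω ∂μ, ∀ᶠ X : ℕ in atTop, ∃ l : List ℕ, (l.length : ℝ) ≤ (Real.log (1 / ε) + 5) / κ ∧
        (l.map fun n => a n + ξ n ω).sum = X) := by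
  constructor
  · intro ε hε hε1 k hk Ω _ μ _ ξ hmeas hind hunif
    have hkR : (2 : ℝ) ≤ k := by exact_mod_cast hk
    have hw : ∀ n : ℕ, (((n ^ k : ℕ) : ℝ)) ^ ε = (n : ℝ) ^ (ε * k) := by
      intro n
      push_cast
      rw [← Real.rpow_natCast, ← Real.rpow_mul (by positivity), mul_comm]
    have hgap : Pool.Agent.K3h70.RP.GapS (1 / (k : ℝ)) ((k : ℝ) * 2 ^ (k - 1)) 1
        (fun n => n ^ k) := by
      intro x hx
      obtain ⟨c, ⟨n, hn⟩, h1, h2⟩ := Pool.Agent.K3h70.WA.gap_powers k hk x hx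
      subst hn
      exact ⟨n, h1, h2⟩
    have h := Pool.Agent.K3h70.RP.perturbed (κ := 1 / (k : ℝ)) (a := fun n => n ^ k)
      (by positivity) (by rw [div_le_div_iff₀ (by linarith) (by norm_num)]; linarith) hε hε1
      (Nat.pow_left_injective (by omega)) hgap μ hmeas hind (by
        intro n j hj
        simp only [hw] at hj ⊢
        exact hunif n j hj)
    rw [div_div_eq_mul_div, div_one] at h
    exact h
  · intro ε hε hε1 κ K x₀ hκ hκ1 a hinj ha Ω _ μ _ ξ hmeas hind hunif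
    exact Pool.Agent.K3h70.RP.perturbed hκ hκ1 hε hε1 hinj ha μ hmeas hind hunif

end Pool.Agent.Results.MP_45c923_nt.RandomPerturbations
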