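import Mathlib
import Pool.Agent.K3h70.WA.Pow
import Pool.Agent.K3h70.WA.Res

/-! # O(k) k-th powers suffice modulo almost every prime, with all the summands small (helper70)

For every `ε > 0` and `B ≥ 1` there is a constant `C` such that for every `k ≥ 2`, all large `Q` and all
`0 < θ ≤ 1` all but `Q ^ (1 - θ + ε)` of the primes `q ∈ (Q, 2 Q]` have this property: for every natural
number `n ≤ Q ^ B` there is a sum `m` of at most `C k` `k`-th powers with `m ≡ n (mod q)` and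
`|m - n| ≤ Q ^ (1 + θ)`. The same holds, with `C / κ` summands, for every set with an element in each
interval `[x - K x ^ (1 - κ), x]`. -/

set_option autoImplicit false

open Finset

namespace Pool.Agent.Results.MP_45c923_nt.ResidueClasses

open Pool.Agent.K3h70.WA

open Classical in
theorem result :
    (∀ ε : ℝ, 0 < ε → ∀ B : ℝ, 1 ≤ B → ∃ C : ℝ, 0 < C ∧ ∀ k : ℕ, 2 ≤ k → ∃ Q₀ : ℕ, ∀ Q : ℕ, Q₀ ≤ Q →
      ∀ θ : ℝ, 0 < θ → θ ≤ 1 →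
        (((Ioc Q (2 * Q)).filter (fun q => q.Prime ∧
          ¬ ∀ n : ℕ, (n : ℝ) ≤ (Q : ℝ) ^ B → ∃ l : List ℕ, (l.length : ℝ) ≤ C * k ∧
            (l.map (fun x => x ^ k)).sum ≡ n [MOD q] ∧
            |(((l.map (fun x => x ^ k)).sum : ℕ) : ℝ) - n| ≤ (Q : ℝ) ^ (1 + θ))).card : ℝ) ≤
              (Q : ℝ) ^ (1 - θ + ε)) ∧
    (∀ ε : ℝ, 0 < ε → ∀ B : ℝ, 1 ≤ B → ∃ C : ℝ, 0 < C ∧ ∀ κ K x₀ : ℝ, 0 < κ → κ < 1 →
      ∃ Q₀ : ℕ, ∀ A : Set ℕ,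
        (∀ x : ℝ, x₀ ≤ x → ∃ a ∈ A, x - K * x ^ (1 - κ) ≤ (a : ℝ) ∧ (a : ℝ) ≤ x) →
        ∀ Q : ℕ, Q₀ ≤ Q → ∀ θ : ℝ, 0 < θ → θ ≤ 1 →
          (((Ioc Q (2 * Q)).filter (fun q => q.Prime ∧
            ¬ ∀ n : ℕ, (n : ℝ) ≤ (Q : ℝ) ^ B → ∃ l : List ℕ, (∀ a ∈ l, a ∈ A) ∧
              (l.length : ℝ) ≤ C / κ ∧ l.sum ≡ n [MOD q] ∧
              |(l.sum : ℝ) - n| ≤ (Q : ℝ) ^ (1 + θ))).card : ℝ) ≤
                (Q : ℝ) ^ (1 - θ + ε)) := by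
  constructor
  · intro ε hε B hB
    obtain ⟨C, hC, h⟩ := modular ε hε B hB
    refine ⟨C, hC, fun k hk => ?_⟩
    have hkR : (1 : ℝ) < k := by exact_mod_cast (by omega : 1 < k)
    obtain ⟨Q₀, hQ₀⟩ := h (1 / (k : ℝ)) ((k : ℝ) * 2 ^ (k - 1)) 1 (by positivity)
      (by rw [div_lt_one (by linarith)]; exact hkR)
    refine ⟨Q₀, fun Q hQ θ hθ hθ1 => le_trans ?_ (hQ₀ (powers k) (gap_powers k hk) Q hQ θ hθ hθ1)⟩
    rw [Nat.cast_le]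
    apply Finset.card_le_card
    intro q hq
    rw [mem_filter] at hq ⊢
    refine ⟨hq.1, hq.2.1, fun hgood => hq.2.2 fun n hn => ?_⟩
    obtain ⟨l, hl1, hl2, hl3, hl4⟩ := hgood n hn
    obtain ⟨l', rfl⟩ := powers_list k l hl1
    refine ⟨l', ?_, hl3, hl4⟩
    rw [List.length_map, div_div_eq_mul_div, div_one] at hl2
    exact hl2
  · intro ε hε B hB
    obtain ⟨C, hC, h⟩ := modular ε hε B hB
    exact ⟨C, hC, fun κ K x₀ hκ hκ1 => h κ K x₀ hκ hκ1⟩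

end Pool.Agent.Results.MP_45c923_nt.ResidueClasses
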